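import Pool.Agent.H586.AF.C

/-! # Project AF (helper586), task Q22 (by helper539) -/

set_option autoImplicit false
set_option linter.unusedVariables false

open MeasureTheory Matrix Finset Filter Topology
open scoped Quaternion

namespace Pool.Agent.H539.AF

open Pool.Agent.H586.AF

noncomputable section

/-- extension by zero of a function on the sites `1, ..., n` -/
def FF {n : ℕ} (f : Fin n → ℂ) (x : ℕ) : ℂ := if c : x - 1 < n ∧ 1 ≤ x then f ⟨x - 1, c.1⟩ else 0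

theorem FF_zero {n : ℕ} (f : Fin n → ℂ) : FF f 0 = 0 := by
  unfold FF; rw [dif_neg]; omega

theorem FF_last {n : ℕ} (f : Fin n → ℂ) : FF f (n + 1) = 0 := by
  unfold FF; rw [dif_neg]; omega

theorem FF_succ {n : ℕ} (f : Fin n → ℂ) (i : Fin n) : FF f ((i : ℕ) + 1) = f i := by
  unfold FF
  rw [dif_pos ⟨by simp, by omega⟩]
  congr 1

theorem dm_sum {m n : ℕ} (f : Fin n → ℂ) (j : Fin m) :
    ∑ i : Fin n, ((dm m n j i : ℝ) : ℂ) * f i = FF f ((j : ℕ) + 1) - FF f j := by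
  have h1 : ∑ i : Fin n, (if (i : ℕ) = j then (1 : ℂ) else 0) * f i = FF f ((j : ℕ) + 1) := by
    unfold FF
    split_ifs with c
    · rw [Finset.sum_eq_single ⟨(j : ℕ) + 1 - 1, c.1⟩]
      · simp
      · intro i _ hi
        rw [if_neg, zero_mul]
        intro h
        apply hi
        ext
        simp [h]
      · simp
    · apply Finset.sum_eq_zero
      intro i _
      rw [if_neg, zero_mul]
      intro h
      apply c
      have := i.2
      omega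
  have h2 : ∑ i : Fin n, (if (i : ℕ) + 1 = j then (1 : ℂ) else 0) * f i = FF f j := by
    unfold FF
    split_ifs with c
    · rw [Finset.sum_eq_single ⟨(j : ℕ) - 1, c.1⟩]
      · rw [if_pos, one_mul]
        simp only
        omega
      · intro i _ hi
        rw [if_neg, zero_mul]
        intro h
        apply hi
        ext
        simp only
        omega
      · simp
    · apply Finset.sum_eq_zero
      intro i _
      rw [if_neg, zero_mul]
      intro h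
      apply c
      have := i.2
      omega
  rw [← h1, ← h2, ← Finset.sum_sub_distrib]
  apply Finset.sum_congr rfl
  intro i _
  unfold dm
  split_ifs <;> simp

theorem sumI (L : ℕ) (g : ℕ → ℝ) : ∑ x ∈ Finset.Ico 1 L, g x = ∑ i : Fin (L - 1), g ((i : ℕ) + 1) := by
  rw [Finset.sum_Ico_eq_sum_range, Finset.sum_range]
  apply Finset.sum_congr rfl
  intro i _
  rw [add_comm]

theorem sumC (L : ℕ) (g : ℕ → ℝ) : ∑ x ∈ Finset.Icc 1 L, g x = ∑ i : Fin L, g ((i : ℕ) + 1) := by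
  have : Finset.Icc 1 L = Finset.Ico 1 (L + 1) := by
    ext x
    simp only [Finset.mem_Icc, Finset.mem_Ico]
    omega
  rw [this, Finset.sum_Ico_eq_sum_range, Finset.sum_range]
  show ∑ i : Fin L, g (1 + i) = _
  apply Finset.sum_congr rfl
  intro i _
  rw [add_comm]

theorem half_sum (L : ℕ) (hL : 1 ≤ L) (f : Fin (L - 1) → ℂ) :
    ∑ j : Fin L, (1 / 2 : ℝ) * (‖FF f ((j : ℕ) + 1)‖ ^ 2 + ‖FF f j‖ ^ 2) = ∑ i, ‖f i‖ ^ 2 := by
  have h1 : ∑ j : Fin L, ‖FF f ((j : ℕ) + 1)‖ ^ 2 = ∑ i, ‖f i‖ ^ 2 := by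
    rw [← Finset.sum_range (fun x => ‖FF f (x + 1)‖ ^ 2)]
    obtain ⟨n, rfl⟩ : ∃ n, L = n + 1 := ⟨L - 1, by omega⟩
    rw [Finset.sum_range_succ]
    have e : FF f (n + 1) = 0 := FF_last f
    rw [e, Finset.sum_range]
    simp only [norm_zero, ne_eq, OfNat.ofNat_ne_zero, not_false_eq_true, zero_pow, add_zero]
    exact Finset.sum_congr rfl fun i _ => by rw [FF_succ (n := n) f i]
  have h2 : ∑ j : Fin L, ‖FF f (j : ℕ)‖ ^ 2 = ∑ i, ‖f i‖ ^ 2 := by
    rw [← Finset.sum_range (fun x => ‖FF f x‖ ^ 2)]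
    obtain ⟨n, rfl⟩ : ∃ n, L = n + 1 := ⟨L - 1, by omega⟩
    rw [Finset.sum_range_succ', FF_zero, Finset.sum_range]
    simp only [norm_zero, ne_eq, OfNat.ofNat_ne_zero, not_false_eq_true, zero_pow, add_zero]
    exact Finset.sum_congr rfl fun i _ => by rw [FF_succ (n := n) f i]
  rw [← Finset.mul_sum, Finset.sum_add_distrib, h1, h2]
  ring

theorem s12_fin (L : ℕ) (F : ℕ → ℕ → ℕ → ℕ → ℝ) :
    s12 L F = ∑ x : Fin L, ∑ y : Fin L, ∑ z : Fin (L - 1), ∑ h : Fin L, F x y ((z : ℕ) + 1) ((h : ℕ) + 1) := by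
  unfold s12
  simp only [sumI, sumC, Finset.sum_range]

theorem s23_fin (L : ℕ) (F : ℕ → ℕ → ℕ → ℕ → ℝ) :
    s23 L F = ∑ x : Fin (L - 1), ∑ y : Fin L, ∑ z : Fin L, ∑ h : Fin L, F ((x : ℕ) + 1) y z ((h : ℕ) + 1) := by
  unfold s23
  simp only [sumI, sumC, Finset.sum_range]

theorem s24_fin (L : ℕ) (F : ℕ → ℕ → ℕ → ℕ → ℝ) :
    s24 L F = ∑ x : Fin (L - 1), ∑ y : Fin L, ∑ z : Fin (L - 1), ∑ h : Fin L, F ((x : ℕ) + 1) y ((z : ℕ) + 1) h := by
  unfold s24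
  simp only [sumI, Finset.sum_range]

theorem ex2_1 (L : ℕ) (b : I2 L → ℂ) (x : ℕ) (y : Fin L) (z : Fin (L - 1)) (h : Fin L) :
    ex2 L b 0 x y ((z : ℕ) + 1) ((h : ℕ) + 1) = FF (fun i => b (i, y, z, h)) x := by
  unfold ex2 FF
  by_cases c : x - 1 < L - 1 ∧ 1 ≤ x
  · rw [dif_pos c, dif_pos ⟨⟨c.1, y.2, by simp, by simp⟩, c.2, by omega, by omega⟩]
    congr 1
  · rw [dif_neg c, dif_neg]
    rintro ⟨h1, h2⟩
    exact c ⟨h1.1, h2.1⟩

theorem ex2_3 (L : ℕ) (b : I2 L → ℂ) (x : Fin (L - 1)) (y : Fin L) (z : ℕ) (h : Fin L) :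
    ex2 L b 0 ((x : ℕ) + 1) y z ((h : ℕ) + 1) = FF (fun i => b (x, y, i, h)) z := by
  unfold ex2 FF
  by_cases c : z - 1 < L - 1 ∧ 1 ≤ z
  · rw [dif_pos c, dif_pos ⟨⟨by simp, y.2, c.1, by simp⟩, by omega, c.2, by omega⟩]
    congr 1
  · rw [dif_neg c, dif_neg]
    rintro ⟨h1, h2⟩
    exact c ⟨h1.2.2.1, h2.2.1⟩

theorem ex2_4 (L : ℕ) (b : I2 L → ℂ) (x : Fin (L - 1)) (y : Fin L) (z : Fin (L - 1)) (h : ℕ) :
    ex2 L b 0 ((x : ℕ) + 1) y ((z : ℕ) + 1) h = FF (fun i => b (x, y, z, i)) h := by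
  unfold ex2 FF
  by_cases c : h - 1 < L ∧ 1 ≤ h
  · rw [dif_pos c, dif_pos ⟨⟨by simp, y.2, by simp, c.1⟩, by omega, by omega, c.2⟩]
    congr 1
  · rw [dif_neg c, dif_neg]
    rintro ⟨h1, h2⟩
    exact c ⟨h1.2.2.2, h2.2.2⟩

/-! ### Matrices -/

theorem k4_mul {a b c d a' b' c' d' a'' b'' c'' d'' : Type} [Fintype a'] [Fintype b'] [Fintype c'] [Fintype d']
    (A : Matrix a a' ℂ) (B : Matrix b b' ℂ) (C : Matrix c c' ℂ) (D : Matrix d d' ℂ)
    (A' : Matrix a' a'' ℂ) (B' : Matrix b' b'' ℂ) (C' : Matrix c' c'' ℂ) (D' : Matrix d' d'' ℂ) :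
    k4 A B C D * k4 A' B' C' D' = k4 (A * A') (B * B') (C * C') (D * D') := by
  ext x y
  simp only [Matrix.mul_apply, k4, Fintype.sum_prod_type]
  rw [Finset.sum_mul, Finset.sum_mul, Finset.sum_mul]
  refine Finset.sum_congr rfl fun i _ => ?_
  rw [Finset.mul_sum _ (fun j => B x.2.1 j * B' j y.2.1), Finset.sum_mul, Finset.sum_mul]
  refine Finset.sum_congr rfl fun j _ => ?_
  rw [Finset.mul_sum _ (fun j => C x.2.2.1 j * C' j y.2.2.1), Finset.sum_mul]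
  refine Finset.sum_congr rfl fun k _ => ?_
  rw [Finset.mul_sum]
  refine Finset.sum_congr rfl fun l _ => ?_
  ring

theorem k4_conj {a b c d a' b' c' d' : Type}
    (A : Matrix a a' ℂ) (B : Matrix b b' ℂ) (C : Matrix c c' ℂ) (D : Matrix d d' ℂ) :
    (k4 A B C D)ᴴ = k4 Aᴴ Bᴴ Cᴴ Dᴴ := by
  ext x y
  simp [k4, Matrix.conjTranspose_apply]

theorem phs_mul {n : ℕ} (θ s s' x0 : ℝ) :
    (phs θ s x0 : Matrix (Fin n) (Fin n) ℂ) * (phs θ s' x0)ᴴ = phs θ (s - s') x0 := by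
  unfold phs
  rw [Matrix.diagonal_conjTranspose, Matrix.diagonal_mul_diagonal]
  congr 1
  funext i
  simp only [Pi.star_apply, Complex.star_def, ← Complex.exp_conj, map_mul, Complex.conj_I, Complex.conj_ofReal]
  rw [← Complex.exp_add]
  congr 1
  push_cast
  ring

theorem phs_zero {n : ℕ} (θ x0 : ℝ) : (phs θ 0 x0 : Matrix (Fin n) (Fin n) ℂ) = 1 := by
  unfold phs
  rw [← Matrix.diagonal_one]
  congr 1
  funext i
  simp

theorem ee_diag (L : ℕ) : e0 L (L - 1) * (e0 L (L - 1))ᴴ + e1 L (L - 1) * (e1 L (L - 1))ᴴ =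
    Matrix.diagonal fun i => ((lNN L i i : ℝ) : ℂ) := by
  ext j j'
  rw [Matrix.add_apply, Matrix.mul_apply, Matrix.mul_apply, ← Finset.sum_add_distrib, Matrix.diagonal_apply]
  split_ifs with h
  · subst h
    unfold lNN
    rw [Matrix.mul_apply]
    push_cast
    refine Finset.sum_congr rfl fun i _ => ?_
    simp only [e0, e1, dm, Matrix.conjTranspose_apply, Matrix.transpose_apply]
    by_cases h1 : (i : ℕ) = j
    · have h2 : ¬ ((i : ℕ) + 1 = j) := by omega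
      simp [h1]
    · by_cases h2 : (i : ℕ) + 1 = j
      · simp [h1, h2]
      · simp [h1, h2]
  · refine Finset.sum_eq_zero fun i _ => ?_
    simp only [e0, e1, Matrix.conjTranspose_apply]
    have h3 : (j : ℕ) ≠ j' := fun h4 => h (Fin.ext h4)
    have h5 : ¬ ((i : ℕ) = j ∧ (i : ℕ) = j') := by omega
    have h6 : ¬ ((i : ℕ) + 1 = j ∧ (i : ℕ) + 1 = j') := by omega
    by_cases h1 : (i : ℕ) = j <;> by_cases h2 : (i : ℕ) + 1 = j
    · omega
    · have : ¬ ((i : ℕ) = j') := by omega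
      simp [this, h2]
    · have : ¬ ((i : ℕ) + 1 = j') := by omega
      simp [this, h1]
    · simp [h1, h2]

theorem e01 (L : ℕ) : e0 L (L - 1) * (e1 L (L - 1))ᴴ = cx (tm L) := by
  ext j j'
  rw [Matrix.mul_apply]
  simp only [e0, e1, Matrix.conjTranspose_apply, Matrix.map_apply, tm]
  by_cases h : (j' : ℕ) = j + 1
  · have hj : (j : ℕ) < L - 1 := by have := j'.2; omega
    rw [Finset.sum_eq_single (⟨j, hj⟩ : Fin (L - 1))]
    · simp [h]
    · intro i _ hi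
      rw [if_neg, zero_mul]
      intro h1
      exact hi (Fin.ext h1)
    · simp
  · rw [if_neg h]
    simp only [Complex.ofReal_zero]
    refine Finset.sum_eq_zero fun i _ => ?_
    by_cases h1 : (i : ℕ) = j
    · have : ¬ ((i : ℕ) + 1 = j') := by omega
      simp [this]
    · simp [h1]

theorem e10 (L : ℕ) : e1 L (L - 1) * (e0 L (L - 1))ᴴ = cx (tm L)ᵀ := by
  have h := congrArg Matrix.conjTranspose (e01 L)
  rw [Matrix.conjTranspose_mul, Matrix.conjTranspose_conjTranspose] at h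
  rw [h]
  ext i j
  simp [Matrix.conjTranspose_apply]

theorem k4_add2 {a b c d a' b' c' d' : Type}
    (A : Matrix a a' ℂ) (B B' : Matrix b b' ℂ) (C : Matrix c c' ℂ) (D : Matrix d d' ℂ) :
    k4 A (B + B') C D = k4 A B C D + k4 A B' C D := by
  ext x y
  simp only [k4, Matrix.add_apply]
  ring

theorem g2g2 (L : ℕ) (θ : ℝ) : g2 L θ * (g2 L θ)ᴴ =
    k4 1 (Matrix.diagonal fun i => ((lNN L i i : ℝ) : ℂ)) 1 1
    - k4 (phs θ 1 1) (cx (tm L)) 1 1 - k4 (phs θ (-1) 1) (cx (tm L)ᵀ) 1 1 := by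
  unfold g2
  rw [Matrix.conjTranspose_sub, Matrix.sub_mul, Matrix.mul_sub, Matrix.mul_sub]
  simp only [k4_conj, k4_mul, Matrix.conjTranspose_one, mul_one, phs_mul, e01, e10]
  rw [← ee_diag, k4_add2]
  have h1 : (1 / 2 - 1 / 2 : ℝ) = 0 := by norm_num
  have h2 : (1 / 2 - -(1 / 2) : ℝ) = 1 := by norm_num
  have h3 : (-(1 / 2) - 1 / 2 : ℝ) = -1 := by norm_num
  have h4 : (-(1 / 2) - -(1 / 2) : ℝ) = 0 := by norm_num
  rw [h1, h2, h3, h4, phs_zero]
  abel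

theorem hf_eq {m n : Type} [Fintype m] [Fintype n] (a : m → ℂ) (M : Matrix m n ℂ) (b : n → ℂ) :
    hf a M b = (star a ⬝ᵥ (M *ᵥ b)).re := by
  unfold hf dotProduct Matrix.mulVec dotProduct
  simp only [Finset.mul_sum, mul_assoc, Pi.star_apply]

theorem hf_sq {m n : Type} [Fintype m] [Fintype n] (N : Matrix m n ℂ) (b : n → ℂ) :
    hf b (Nᴴ * N) b = ∑ i, ‖(N *ᵥ b) i‖ ^ 2 := by
  rw [hf_eq, ← Matrix.mulVec_mulVec, Matrix.dotProduct_mulVec, ← Matrix.star_mulVec]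
  unfold dotProduct
  rw [Complex.re_sum]
  refine Finset.sum_congr rfl fun i _ => ?_
  rw [Pi.star_apply, Complex.star_def, mul_comm, Complex.mul_conj, Complex.ofReal_re, Complex.normSq_eq_norm_sq]

theorem hf_add {m n : Type} [Fintype m] [Fintype n] (a : m → ℂ) (M N : Matrix m n ℂ) (b : n → ℂ) :
    hf a (M + N) b = hf a M b + hf a N b := by
  rw [hf_eq, hf_eq, hf_eq, Matrix.add_mulVec, dotProduct_add, Complex.add_re]

theorem hf_sub {m n : Type} [Fintype m] [Fintype n] (a : m → ℂ) (M N : Matrix m n ℂ) (b : n → ℂ) :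
    hf a (M - N) b = hf a M b - hf a N b := by
  rw [hf_eq, hf_eq, hf_eq, Matrix.sub_mulVec, dotProduct_sub, Complex.sub_re]

theorem hf_one {n : Type} [Fintype n] [DecidableEq n] (r : ℝ) (b : n → ℂ) :
    hf b ((r : ℂ) • (1 : Matrix n n ℂ)) b = r * ∑ i, ‖b i‖ ^ 2 := by
  rw [hf_eq, Matrix.smul_mulVec, Matrix.one_mulVec, dotProduct_smul, smul_eq_mul, Complex.re_ofReal_mul]
  congr 1
  unfold dotProduct
  rw [Complex.re_sum]
  refine Finset.sum_congr rfl fun i _ => ?_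
  rw [Pi.star_apply, Complex.star_def, mul_comm, Complex.mul_conj, Complex.ofReal_re, Complex.normSq_eq_norm_sq]

theorem cx_mul {m n p : ℕ} (A : Matrix (Fin n) (Fin m) ℝ) (B : Matrix (Fin n) (Fin p) ℝ) :
    cx (Aᵀ * B) = (cx A)ᴴ * cx B := by
  ext i j
  simp [Matrix.mul_apply, Matrix.conjTranspose_apply]

theorem hf1 (L : ℕ) (b : I2 L → ℂ) : hf b (k4 (cx (lDD L)) 1 1 1) b =
    s12 L fun x y z h => ‖ex2 L b 0 (x + 1) y z h - ex2 L b 0 x y z h‖ ^ 2 := by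
  have e : (k4 (cx (lDD L)) 1 1 1 : Matrix (I2 L) (I2 L) ℂ) =
      (k4 (cx (dm L (L - 1))) 1 1 1 : Matrix (Fin L × Fin L × Fin (L - 1) × Fin L) (I2 L) ℂ)ᴴ *
        (k4 (cx (dm L (L - 1))) 1 1 1 : Matrix (Fin L × Fin L × Fin (L - 1) × Fin L) (I2 L) ℂ) := by
    rw [k4_conj, k4_mul]
    unfold lDD
    rw [cx_mul]
    simp
  rw [e, hf_sq, s12_fin, Fintype.sum_prod_type]
  refine Finset.sum_congr rfl fun x _ => ?_
  rw [Fintype.sum_prod_type]
  refine Finset.sum_congr rfl fun y _ => ?_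
  rw [Fintype.sum_prod_type]
  refine Finset.sum_congr rfl fun z _ => ?_
  refine Finset.sum_congr rfl fun h _ => ?_
  rw [ex2_1, ex2_1, ← dm_sum]
  congr 2
  simp [Matrix.mulVec, dotProduct, k4, Fintype.sum_prod_type, Matrix.one_apply]

theorem hf3 (L : ℕ) (b : I2 L → ℂ) : hf b (k4 1 1 (cx (lDD L)) 1) b =
    s23 L fun x y z h => ‖ex2 L b 0 x y (z + 1) h - ex2 L b 0 x y z h‖ ^ 2 := by
  have e : (k4 1 1 (cx (lDD L)) 1 : Matrix (I2 L) (I2 L) ℂ) =
      (k4 1 1 (cx (dm L (L - 1))) 1 : Matrix (Fin (L - 1) × Fin L × Fin L × Fin L) (I2 L) ℂ)ᴴ *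
        (k4 1 1 (cx (dm L (L - 1))) 1 : Matrix (Fin (L - 1) × Fin L × Fin L × Fin L) (I2 L) ℂ) := by
    rw [k4_conj, k4_mul]
    unfold lDD
    rw [cx_mul]
    simp
  rw [e, hf_sq, s23_fin, Fintype.sum_prod_type]
  refine Finset.sum_congr rfl fun x _ => ?_
  rw [Fintype.sum_prod_type]
  refine Finset.sum_congr rfl fun y _ => ?_
  rw [Fintype.sum_prod_type]
  refine Finset.sum_congr rfl fun z _ => ?_
  refine Finset.sum_congr rfl fun h _ => ?_
  rw [ex2_3, ex2_3, ← dm_sum]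
  congr 2
  simp [Matrix.mulVec, dotProduct, k4, Fintype.sum_prod_type, Matrix.one_apply]

theorem hf4 (L : ℕ) (b : I2 L → ℂ) : hf b (k4 1 1 1 (cx (lDN L))) b =
    s24 L fun x y z h => ‖ex2 L b 0 x y z (h + 1) - ex2 L b 0 x y z h‖ ^ 2 := by
  have e : (k4 1 1 1 (cx (lDN L)) : Matrix (I2 L) (I2 L) ℂ) =
      (k4 1 1 1 (cx (dm L L)) : Matrix (I2 L) (I2 L) ℂ)ᴴ * (k4 1 1 1 (cx (dm L L)) : Matrix (I2 L) (I2 L) ℂ) := by
    rw [k4_conj, k4_mul]
    unfold lDN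
    rw [cx_mul]
    simp
  rw [e, hf_sq, s24_fin, Fintype.sum_prod_type]
  refine Finset.sum_congr rfl fun x _ => ?_
  rw [Fintype.sum_prod_type]
  refine Finset.sum_congr rfl fun y _ => ?_
  rw [Fintype.sum_prod_type]
  refine Finset.sum_congr rfl fun z _ => ?_
  refine Finset.sum_congr rfl fun h _ => ?_
  rw [ex2_4, ex2_4, ← dm_sum]
  congr 2
  simp [Matrix.mulVec, dotProduct, k4, Fintype.sum_prod_type, Matrix.one_apply]

theorem s12_half (L : ℕ) (hL : 1 ≤ L) (b : I2 L → ℂ) :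
    (s12 L fun x y z h => (1 / 2 : ℝ) * (‖ex2 L b 0 (x + 1) y z h‖ ^ 2 + ‖ex2 L b 0 x y z h‖ ^ 2)) =
      ∑ i, ‖b i‖ ^ 2 := by
  rw [s12_fin]
  simp only [ex2_1]
  have : ∀ (g : Fin L → Fin L → Fin (L - 1) → Fin L → ℝ),
      ∑ x, ∑ y, ∑ z, ∑ h, g x y z h = ∑ y, ∑ z, ∑ h, ∑ x, g x y z h := by
    intro g
    rw [Finset.sum_comm]
    refine Finset.sum_congr rfl fun y _ => ?_
    rw [Finset.sum_comm]
    refine Finset.sum_congr rfl fun z _ => ?_
    rw [Finset.sum_comm]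
  rw [this]
  have this' : ∀ (g : Fin (L - 1) → Fin L → Fin (L - 1) → Fin L → ℝ),
      ∑ x, ∑ y, ∑ z, ∑ h, g x y z h = ∑ y, ∑ z, ∑ h, ∑ x, g x y z h := by
    intro g
    rw [Finset.sum_comm]
    refine Finset.sum_congr rfl fun y _ => ?_
    rw [Finset.sum_comm]
    refine Finset.sum_congr rfl fun z _ => ?_
    rw [Finset.sum_comm]
  simp only [Fintype.sum_prod_type]
  rw [this']
  refine Finset.sum_congr rfl fun y _ => ?_
  refine Finset.sum_congr rfl fun z _ => ?_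
  refine Finset.sum_congr rfl fun h _ => ?_
  exact half_sum L hL (fun i => b (i, y, z, h))

theorem pq (p q : ℂ) (c : ℝ) : (1 / 2) * c * (‖p‖ ^ 2 + ‖q‖ ^ 2) - (p * star q).re =
    (1 / 2) * ‖p - q‖ ^ 2 - (1 - c) * ((1 / 2) * (‖p‖ ^ 2 + ‖q‖ ^ 2)) := by
  rw [← Complex.normSq_eq_norm_sq, ← Complex.normSq_eq_norm_sq, ← Complex.normSq_eq_norm_sq,
    Complex.normSq_sub, Complex.star_def]
  ring

theorem tq22 : S_Q22 := by
  intro L hL θ b
  have hm : m22 L θ - g2 L θ * (g2 L θ)ᴴ = k4 (cx (lDD L)) 1 1 1 + k4 1 1 (cx (lDD L)) 1 +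
      k4 1 1 1 (cx (lDN L)) - kap θ • (1 : Matrix (I2 L) (I2 L) ℂ) := by
    rw [g2g2]
    unfold m22 covL
    abel
  rw [hm, hf_sub, hf_add, hf_add, hf1, hf3, hf4]
  unfold kap
  rw [hf_one, ← s12_half L (by omega) b]
  simp only [pq]
  unfold s12 s23 s24
  simp only [Finset.sum_sub_distrib, ← Finset.mul_sum, norm_sub_rev (ex2 L b 0 _ _ (_ + 1) _)]
  have e3 : ∀ x y z h, ‖ex2 L b 0 x y z h - ex2 L b 0 x y (z + 1) h‖ =
      ‖ex2 L b 0 x y (z + 1) h - ex2 L b 0 x y z h‖ := fun x y z h => norm_sub_rev _ _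
  simp only [e3]
  ring

end

end Pool.Agent.H539.AF
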